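import Pool.Agent.Helper16.BZ.Stmts

/-!
The theorem for a dynamical system.
-/

open Finset Filter MeasureTheory Topology
open scoped ComplexConjugate InnerProductSpace

namespace Pool.Agent.Helper16.BZ

open Pool.Agent.Helper16.AZ (T E Op mm Eig PP ST_VDH ST_MSR ST_MRF ST_FPV ST_TLR)
open Pool.Agent.Helper16.MD (MS PB Am RW Rich)
open UnitAddTorus (mFourier)

theorem thb_MS_add (f g : ℕ → ℂ) (N : ℕ) : MS (fun n => f n + g n) N = MS f N + MS g N := by
  simp only [MS, mul_add, Finset.sum_add_distrib]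

theorem thb_MS_smul (c : ℂ) (f : ℕ → ℂ) (N : ℕ) : MS (fun n => c * f n) N = c * MS f N := by
  simp only [MS, Finset.mul_sum]
  exact Finset.sum_congr rfl fun n _ => by ring

theorem thb_one (h1 : ST_DEC2) (h2 : ST_PTB2) (h3 : ST_PTC2) (X : Type) [MetricSpace X]
    [CompactSpace X] [MeasurableSpace X] [BorelSpace X] (S : X ≃ₜ X) (m : Measure X)
    [IsProbabilityMeasure m] (d : ℕ) (φ : X → Op d)
    (v : X → E d) (u : E d) (x : X) (hm : MeasurePreserving S m m) (hE : EQ S m) (hG : GR S)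
    (hP : PD S m) (hφ : UC φ) (hL : LM φ)
    (hv : Continuous v) (hv1 : ∀ θ, ‖v θ‖ ≤ 1) (hu : ‖u‖ ≤ 1) (η : ℝ) (hη : 0 < η) (hη1 : η ≤ 1) :
    ∀ᶠ N : ℕ in atTop, ‖MS (ff S φ v u x) N‖ ≤ η * N := by
  obtain ⟨κ, hκ, h3'⟩ := h3 (η / 4) (by positivity) (by linarith)
  obtain ⟨b, c, hb, hc, hbc, hc1, ⟨K, z, g, hzg, hg⟩, H, hH, hcorr⟩ :=
    h1 X S m d φ v (η / 4) κ hm hφ hv hv1 (by positivity) hκ
  have e1 := h2 X S m d φ b u x (η / 4) K z g hE hφ hb hu (by positivity) hzg hg (η / 4)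
    (by positivity)
  have e2 := h3' X S m d φ c u x H hE hG hP hφ hL hc hc1 hu hH hcorr
  filter_upwards [e1, e2] with N h4 h5
  have h6 : MS (ff S φ v u x) N = MS (ff S φ b u x) N + MS (ff S φ c u x) N := by
    rw [← thb_MS_add]
    have h7 : ff S φ v u x = fun n => ff S φ b u x n + ff S φ c u x n := by
      funext n
      unfold ff
      rw [← hbc, inner_add_left]
    rw [h7]
  rw [h6]
  have h8 := norm_add_le (MS (ff S φ b u x) N) (MS (ff S φ c u x) N)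
  have h9 : (0 : ℝ) ≤ η * N := by positivity
  linarith

theorem st_THB (h1 : ST_DEC2) (h2 : ST_PTB2) (h3 : ST_PTC2) : ST_THB := by
  intro X _ _ _ _ S m _ d φ v u x hm hE hG hP hφ hL hv
  obtain ⟨V, hV0, hV⟩ : ∃ V : ℝ, 0 < V ∧ ∀ θ, ‖v θ‖ ≤ V := by
    obtain ⟨C, hC⟩ := (isCompact_range hv).isBounded.exists_norm_le
    exact ⟨max C 1, by positivity, fun θ => (hC _ ⟨θ, rfl⟩).trans (le_max_left _ _)⟩
  obtain ⟨U, hU0, hU⟩ : ∃ U : ℝ, 0 < U ∧ ‖u‖ ≤ U := ⟨‖u‖ + 1, by positivity, by linarith⟩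
  have hff : ff S φ v u x = fun n => ((V * U : ℝ) : ℂ) *
      ff S φ (fun θ => ((V⁻¹ : ℝ) : ℂ) • v θ) (((U⁻¹ : ℝ) : ℂ) • u) x n := by
    funext n
    unfold ff
    rw [map_smul, inner_smul_left, inner_smul_right, Complex.conj_ofReal]
    have hV' : ((V : ℝ) : ℂ) ≠ 0 := by exact_mod_cast hV0.ne'
    have hU' : ((U : ℝ) : ℂ) ≠ 0 := by exact_mod_cast hU0.ne'
    push_cast
    field_simp
  have hv' : Continuous (fun θ => ((V⁻¹ : ℝ) : ℂ) • v θ) := by fun_prop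
  have hv1 : ∀ θ, ‖((V⁻¹ : ℝ) : ℂ) • v θ‖ ≤ 1 := by
    intro θ
    rw [norm_smul, Complex.norm_real, Real.norm_eq_abs, abs_of_pos (inv_pos.2 hV0)]
    rw [inv_mul_le_iff₀ hV0, mul_one]
    exact hV θ
  have hu1 : ‖((U⁻¹ : ℝ) : ℂ) • u‖ ≤ 1 := by
    rw [norm_smul, Complex.norm_real, Real.norm_eq_abs, abs_of_pos (inv_pos.2 hU0)]
    rw [inv_mul_le_iff₀ hU0, mul_one]
    exact hU
  rw [Metric.tendsto_atTop']
  intro δ hδ
  have key := thb_one h1 h2 h3 X S m d φ _ _ x hm hE hG hP hφ hL hv' hv1 hu1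
    (min 1 (δ / 2 / (V * U))) (lt_min one_pos (by positivity)) (min_le_left _ _)
  obtain ⟨N₀, hN₀⟩ := eventually_atTop.1 key
  refine ⟨max N₀ 1, fun N hN => ?_⟩
  have hN1 : N₀ ≤ N := by
    have := le_max_left N₀ 1
    omega
  have hN2 : 1 ≤ N := by
    have := le_max_right N₀ 1
    omega
  have hNr : (0 : ℝ) < N := by exact_mod_cast hN2
  have h4 := (hN₀ N hN1).trans (mul_le_mul_of_nonneg_right (min_le_right _ _) hNr.le)
  rw [hff, thb_MS_smul, dist_zero_right, norm_div, Complex.norm_natCast, norm_mul,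
    Complex.norm_real, Real.norm_eq_abs, abs_of_pos (by positivity), div_lt_iff₀ hNr]
  calc V * U * _ ≤ V * U * (δ / 2 / (V * U) * N) :=
        mul_le_mul_of_nonneg_left h4 (by positivity)
    _ = δ / 2 * N := by field_simp
    _ < δ * N := by nlinarith

end Pool.Agent.Helper16.BZ
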